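import Pool.Agent.V11327.DBlower

/-!
# Every disagreement bound is at least `2 x / (1 + x)`

The family of laws: on `Fin n × Fin n` with the uniform law, condition the first coordinate to lie in a
`k`-set `S`, or the second one in a `k`-set `T` (plus a private atom that tunes the total variation
distance to be exactly `x`). For every coupling the fraction of agreeing pairs is at most the probability
that two independent uniform `k`-sets have the same minimum, by a majorization argument.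
-/

set_option autoImplicit false

open Filter Topology MeasureTheory
open Pool.Agent.V11327.DB

namespace Pool.Agent.Results.MP_fe4852_pr.LowerBound

theorem at_one (f : ℝ → ℝ) (hf : DisagreementBound f) : 1 ≤ f 1 := by
  have h : ∀ n : ℕ, 1 - f 1 ≤ 4 / ((n : ℝ) + 1) := by
    intro n
    have h1 := main_ineq f hf 1 ⟨zero_le_one, le_rfl⟩ (n + 2) 2 le_rfl (by omega)
      (by rw [sub_self]; positivity)
    refine h1.trans ?_
    push_cast
    have hn : (0 : ℝ) ≤ n := Nat.cast_nonneg _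
    have e1 : (n : ℝ) + 2 - 2 = n := by ring
    have e2 : (n : ℝ) + 2 - 1 = n + 1 := by ring
    rw [e1, e2]
    have e3 : 1 - ((n : ℝ) / (n + 1)) ^ 2 = (2 * n + 1) / (n + 1) ^ 2 := by
      field_simp; ring
    rw [e3, div_pow, div_div_eq_mul_div, div_mul_eq_mul_div, div_div, div_le_div_iff₀
      (by positivity) (by positivity)]
    nlinarith [mul_nonneg hn hn, mul_nonneg hn (mul_nonneg hn hn)]
  have h2 : Tendsto (fun n : ℕ => 4 / ((n : ℝ) + 1)) atTop (𝓝 0) := by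
    refine Tendsto.div_atTop tendsto_const_nhds ?_
    exact tendsto_atTop_add_const_right _ _ tendsto_natCast_atTop_atTop
  have h3 := ge_of_tendsto' h2 h
  linarith

/-- Every disagreement bound `f` satisfies `f x ≥ 2 x / (1 + x)` for all `x ∈ [0, 1]`. -/
theorem result (f : ℝ → ℝ) (hf : DisagreementBound f) :
    ∀ x ∈ Set.Icc (0 : ℝ) 1, 2 * x / (1 + x) ≤ f x := by
  intro x hx
  rcases eq_or_lt_of_le hx.1 with h0 | h0
  · rw [← h0]
    simpa using (hf.1 0 ⟨le_rfl, zero_le_one⟩).1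
  rcases eq_or_lt_of_le hx.2 with h1 | h1
  · rw [h1]
    have := at_one f hf
    norm_num
    exact this
  set θ : ℝ := 1 - x with hθ
  have hθ0 : 0 < θ := by rw [hθ]; linarith
  have hθ1 : θ < 1 := by rw [hθ]; linarith
  have hk : Tendsto (fun n : ℕ => ((⌈θ * (n : ℝ)⌉₊ : ℕ) : ℝ) / (n : ℝ)) atTop (𝓝 θ) :=
    (tendsto_nat_ceil_mul_div_atTop hθ0.le).comp tendsto_natCast_atTop_atTop
  have hρ : Tendsto (fun n : ℕ => ((n : ℝ) - (⌈θ * (n : ℝ)⌉₊ : ℕ)) / ((n : ℝ) - 1)) atTop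
      (𝓝 (1 - θ)) := by
    have e : (fun n : ℕ => (1 - ((⌈θ * (n : ℝ)⌉₊ : ℕ) : ℝ) / (n : ℝ)) / (1 - 1 / (n : ℝ)))
        =ᶠ[atTop] fun n : ℕ => ((n : ℝ) - (⌈θ * (n : ℝ)⌉₊ : ℕ)) / ((n : ℝ) - 1) := by
      filter_upwards [eventually_gt_atTop 1] with n hn
      have h2 : (1 : ℝ) < n := by exact_mod_cast hn
      have h3 : (n : ℝ) ≠ 0 := by positivity
      have h4 : (n : ℝ) - 1 ≠ 0 := by linarith
      field_simp
    refine Tendsto.congr' e ?_
    have h5 : Tendsto (fun n : ℕ => 1 - 1 / (n : ℝ)) atTop (𝓝 (1 - 0)) :=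
      tendsto_const_nhds.sub (tendsto_const_div_atTop_nhds_zero_nat 1)
    have h6 := (tendsto_const_nhds (x := (1 : ℝ))).sub hk
    have h7 := h6.div h5 (by norm_num)
    rw [sub_zero, div_one] at h7
    exact h7
  have hlim : Tendsto (fun n : ℕ => (((⌈θ * (n : ℝ)⌉₊ : ℕ) : ℝ) / (n : ℝ)) ^ 2
      / (1 - (((n : ℝ) - (⌈θ * (n : ℝ)⌉₊ : ℕ)) / ((n : ℝ) - 1)) ^ 2)) atTop
      (𝓝 (θ ^ 2 / (1 - (1 - θ) ^ 2))) := by
    refine (hk.pow 2).div (tendsto_const_nhds.sub (hρ.pow 2)) ?_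
    nlinarith
  have hev : ∀ᶠ n : ℕ in atTop, 1 - f x ≤ (((⌈θ * (n : ℝ)⌉₊ : ℕ) : ℝ) / (n : ℝ)) ^ 2
      / (1 - (((n : ℝ) - (⌈θ * (n : ℝ)⌉₊ : ℕ)) / ((n : ℝ) - 1)) ^ 2) := by
    have h2 : ∀ᶠ n : ℕ in atTop, 2 ≤ θ * (n : ℝ) :=
      (tendsto_natCast_atTop_atTop.const_mul_atTop hθ0).eventually_ge_atTop 2
    filter_upwards [h2, eventually_gt_atTop 0] with n hn hn0
    have hn0' : (0 : ℝ) < n := by exact_mod_cast hn0
    refine main_ineq f hf x hx n ⌈θ * (n : ℝ)⌉₊ ?_ ?_ ?_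
    · have : (2 : ℝ) ≤ (⌈θ * (n : ℝ)⌉₊ : ℕ) := hn.trans (Nat.le_ceil _)
      exact_mod_cast this
    · refine Nat.ceil_le.2 ?_
      nlinarith
    · rw [le_div_iff₀ hn0']
      exact Nat.le_ceil _
  have hfin := ge_of_tendsto hlim hev
  have e : θ ^ 2 / (1 - (1 - θ) ^ 2) = 1 - 2 * x / (1 + x) := by
    have h5 : 1 - (1 - θ) ^ 2 = θ * (1 + x) := by rw [hθ]; ring
    rw [h5]
    have h6 : (1 : ℝ) + x ≠ 0 := by linarith
    field_simp
    rw [hθ]; ring
  rw [e] at hfin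
  linarith

end Pool.Agent.Results.MP_fe4852_pr.LowerBound
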